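import Pool.Agent.H94.EGC.S1

/-!
# EGC: the dimension of the forms in a monomial ideal (module MNI)
-/

set_option autoImplicit false

namespace Pool.EGC.MNI86

open MvPolynomial Pool.EGH Pool.EGC

theorem _root_.Pool.EGC.t_mni : MNIStmt := by
  intro K _ n d S hS
  have h1 : ∀ p : PR K n, p ∈ Ideal.span ((fun s => monomial s (1 : K)) '' S) ↔
      ∀ s ∈ p.support, s ∈ S := by
    intro p
    rw [mem_ideal_span_monomial_image]
    constructor
    · intro h s hs
      obtain ⟨t, ht, hts⟩ := h s hs
      exact hS t ht s hts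
    · intro h s hs
      exact ⟨s, h s hs, le_rfl⟩
  refine ⟨h1, ?_⟩
  have h2 : homogeneousSubmodule (Fin n) K d ⊓ Submodule.restrictScalars K
      (Ideal.span ((fun s => monomial s (1 : K)) '' S)) =
      restrictSupport K {s : Fin n →₀ ℕ | s ∈ S ∧ s.degree = d} := by
    ext p
    rw [Submodule.mem_inf, Submodule.restrictScalars_mem, h1, mem_restrictSupport_iff,
      mem_homogeneousSubmodule]
    constructor
    · rintro ⟨h3, h4⟩ s hs
      refine ⟨h4 s hs, ?_⟩
      have h5 := h3 (mem_support_iff.mp hs)
      rw [Finsupp.degree_eq_weight_one]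
      exact h5
    · intro h3
      refine ⟨?_, fun s hs => (h3 hs).1⟩
      intro s hs
      have h5 := (h3 (mem_support_iff.mpr hs)).2
      rw [Finsupp.degree_eq_weight_one] at h5
      exact h5
  rw [h2, Module.finrank_eq_nat_card_basis (basisRestrictSupport K
    {s : Fin n →₀ ℕ | s ∈ S ∧ s.degree = d})]
  rfl

end Pool.EGC.MNI86
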