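import Pool.Agent.H94.EGC.S1

/-!
# EGC: one more place without cap (module SNC)
-/

set_option autoImplicit false

namespace Pool.EGC.SNC86

open MvPolynomial Pool.EGH Pool.EGC

theorem mem_Mo {m : ℕ} (c : Fin m → Bool) (d : ℕ) (x : Fin m → ℕ) :
    x ∈ Mo c d ↔ ∑ i, x i = d ∧ ∀ i, c i = true → x i ≤ 1 := by
  classical
  simp [Mo, Cp, Finset.mem_filter, Finset.mem_piAntidiag]

theorem mem_up {m : ℕ} (c : Fin m → Bool) (d : ℕ) (A : Finset (Fin m → ℕ)) (y : Fin m → ℕ) :
    y ∈ up c d A ↔ y ∈ Mo c (d + 1) ∧ ∃ x ∈ A, ∃ i, y = x + Pi.single i 1 := by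
  classical
  simp [up, Finset.mem_filter]

open Classical in
/-- The set with the slices `T j` at the last place. -/
noncomputable def gl {m : ℕ} (d : ℕ) (T : ℕ → Finset (Fin m → ℕ)) : Finset (Fin (m + 1) → ℕ) :=
  (Finset.range (d + 1)).biUnion (fun j => (T j).image (fun x => (Fin.snoc x j : Fin (m + 1) → ℕ)))

theorem mem_gl {m : ℕ} (d : ℕ) (T : ℕ → Finset (Fin m → ℕ)) (z : Fin (m + 1) → ℕ) :
    z ∈ gl d T ↔ z (Fin.last m) ≤ d ∧ (Fin.init z : Fin m → ℕ) ∈ T (z (Fin.last m)) := by
  classical
  simp only [gl, Finset.mem_biUnion, Finset.mem_range, Finset.mem_image]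
  constructor
  · rintro ⟨j, hj, x, hx, rfl⟩
    have h1 : (Fin.snoc x j : Fin (m + 1) → ℕ) (Fin.last m) = j := Fin.snoc_last _ _
    have h2 : (Fin.init (Fin.snoc x j : Fin (m + 1) → ℕ) : Fin m → ℕ) = x := by
      funext k; simp [Fin.init]
    rw [h1, h2]
    exact ⟨by omega, hx⟩
  · rintro ⟨h1, h2⟩
    refine ⟨z (Fin.last m), by omega, _, h2, ?_⟩
    exact Fin.snoc_init_self z

theorem card_gl {m : ℕ} (d : ℕ) (T : ℕ → Finset (Fin m → ℕ)) :
    (gl d T).card = ∑ j ∈ Finset.range (d + 1), (T j).card := by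
  classical
  unfold gl
  rw [Finset.card_biUnion]
  · refine Finset.sum_congr rfl (fun j _ => ?_)
    rw [Finset.card_image_of_injective]
    intro x y h
    have := congrArg (fun z : Fin (m + 1) → ℕ => (Fin.init z : Fin m → ℕ)) h
    have hh : ∀ x : Fin m → ℕ, (Fin.init (Fin.snoc x j : Fin (m + 1) → ℕ) : Fin m → ℕ) = x := by
      intro x; funext k; simp [Fin.init]
    simpa [hh] using this
  · intro i _ j _ hij
    rw [Function.onFun, Finset.disjoint_left]
    intro z hz hz'
    rw [Finset.mem_image] at hz hz'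
    obtain ⟨x, _, rfl⟩ := hz
    obtain ⟨y, _, h⟩ := hz'
    apply hij
    have := congrFun h (Fin.last m)
    simpa using this.symm

theorem sum_last {m : ℕ} (z : Fin (m + 1) → ℕ) :
    ∑ i, z i = ∑ k, (Fin.init z : Fin m → ℕ) k + z (Fin.last m) := by
  rw [Fin.sum_univ_castSucc]; rfl

theorem mo_snoc {m : ℕ} (c : Fin m → Bool) (d : ℕ) (z : Fin (m + 1) → ℕ) :
    z ∈ Mo (Fin.snoc c false : Fin (m + 1) → Bool) d ↔
      z (Fin.last m) ≤ d ∧ (Fin.init z : Fin m → ℕ) ∈ Mo c (d - z (Fin.last m)) := by
  rw [mem_Mo, mem_Mo, sum_last]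
  constructor
  · rintro ⟨h1, h2⟩
    refine ⟨by omega, by omega, fun i hi => ?_⟩
    have := h2 i.castSucc (by simpa using hi)
    exact this
  · rintro ⟨h1, h2, h3⟩
    refine ⟨by omega, fun i => ?_⟩
    refine Fin.lastCases ?_ (fun k => ?_) i
    · intro h
      simp at h
    · intro h
      exact h3 k (by simpa using h)

theorem _root_.Pool.EGC.t_snc : SNCStmt := by
  intro m c
  refine ⟨?_, ?_, ?_, ?_⟩
  · intro hc i j hij hj
    revert hij hj
    refine Fin.lastCases ?_ (fun l => ?_) j
    · intro _ h; simp at h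
    · intro hij hj
      revert hij
      refine Fin.lastCases ?_ (fun k => ?_) i
      · intro h
        exact absurd h (by
          rw [not_le]; exact Fin.castSucc_lt_last l)
      · intro h
        have := hc k l (by simpa using h) (by simpa using hj)
        simpa using this
  · intro d
    have : Mo (Fin.snoc c false : Fin (m + 1) → Bool) d = gl d (fun j => Mo c (d - j)) := by
      ext z
      rw [mo_snoc, mem_gl]
    rw [this, card_gl]
  · intro L h1 h2 h3
    refine ⟨fun d => gl d (fun j => L j (d - j)), ?_, ?_, ?_⟩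
    · intro d z hz
      rw [mem_gl] at hz
      rw [mo_snoc]
      exact ⟨hz.1, h1 _ _ hz.2⟩
    · intro d y hy
      rw [mem_up] at hy
      obtain ⟨hy, x, hx, i, hi⟩ := hy
      rw [mem_gl] at hx ⊢
      rw [mo_snoc] at hy
      obtain ⟨hx1, hx2⟩ := hx
      obtain ⟨hy1, hy2⟩ := hy
      refine ⟨hy1, ?_⟩
      revert hi
      refine Fin.lastCases ?_ (fun k => ?_) i
      · intro hi
        have e1 : y (Fin.last m) = x (Fin.last m) + 1 := by rw [hi]; simp
        have e2 : (Fin.init y : Fin m → ℕ) = Fin.init x := by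
          funext l
          simp only [Fin.init, hi, Pi.add_apply]
          rw [Pi.single_eq_of_ne (by exact (Fin.castSucc_lt_last l).ne)]
          rfl
        have e3 : d + 1 - y (Fin.last m) = d - x (Fin.last m) := by omega
        beta_reduce
        rw [e2, e3, e1]
        exact h3 _ _ hx2
      · intro hi
        have e1 : y (Fin.last m) = x (Fin.last m) := by
          rw [hi, Pi.add_apply, Pi.single_eq_of_ne (by exact (Fin.castSucc_lt_last k).ne')]
          rfl
        have e2 : (Fin.init y : Fin m → ℕ) = Fin.init x + Pi.single k 1 := by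
          funext l
          simp only [Fin.init, hi, Pi.add_apply]
          congr 1
          by_cases hl : l = k
          · subst hl; simp
          · rw [Pi.single_eq_of_ne hl, Pi.single_eq_of_ne (by
              intro h; exact hl (Fin.castSucc_injective _ h))]
        have e3 : d + 1 - x (Fin.last m) = (d - x (Fin.last m)) + 1 := by omega
        rw [e1, e3] at hy2
        beta_reduce
        rw [e1, e3]
        apply h2
        rw [mem_up]
        exact ⟨hy2, _, hx2, k, e2⟩
    · intro d
      rw [card_gl]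
  · intro r hr
    funext i
    refine Fin.lastCases ?_ (fun k => ?_) i
    · simp [cp, hr]
    · simp [cp]

end Pool.EGC.SNC86
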